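import Mathlib

/-!
# The designs `D_{g,h}` and `TD_h` can have different 2-ranks

For `m = 8` we give bent functions `g, h` with `g + h` bent and `(g + h)* = g* + h*` such that the
incidence matrix of `D_{g,h}` has smaller rank over `𝔽₂` than the incidence matrix of `TD_h`.
-/

set_option autoImplicit false

open Finset

namespace Pool.Agent.Results.MP_52c3fe_co.RanksDiffer

/-- The space `𝔽₂^m`. -/
abbrev Vec (m : ℕ) : Type := Fin m → ZMod 2

/-- Boolean functions on `𝔽₂^m`. -/
abbrev BF (m : ℕ) : Type := Vec m → ZMod 2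

/-- The sign `(-1)^a` of `a ∈ 𝔽₂`. -/
def sgn (a : ZMod 2) : ℤ := (-1) ^ a.val

/-- The standard dot product. -/
def dot {m : ℕ} (u x : Vec m) : ZMod 2 := ∑ i, u i * x i

/-- The Walsh transform `W_f(u) = ∑_x (-1)^{f(x) + u·x}`. -/
def walsh {m : ℕ} (f : BF m) (u : Vec m) : ℤ := ∑ x, sgn (f x + dot u x)

/-- `f` is bent: `|W_f(u)| = 2^{m/2}` for all `u`. -/
def Bent {m : ℕ} (f : BF m) : Prop := ∀ u, |walsh f u| = 2 ^ (m / 2)

/-- `f'` is the dual of `f`: `W_f(u) = 2^{m/2} (-1)^{f'(u)}` for all `u`. -/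
def IsDual {m : ℕ} (f f' : BF m) : Prop := ∀ u, walsh f u = 2 ^ (m / 2) * sgn (f' u)

/-- The incidence matrix `M` of `D_{g,h}`, with entries
`f_b(x) = g(b) + h(x + b) + (g + h)(x)`. -/
def matM {m : ℕ} (g h : BF m) : Matrix (Vec m) (Vec m) (ZMod 2) :=
  Matrix.of fun b x => g b + h (x + b) + (g x + h x)

/-- The incidence matrix `N` of `TD_h`, with entries `h(x + y)`. -/
def matN {m : ℕ} (h : BF m) : Matrix (Vec m) (Vec m) (ZMod 2) :=
  Matrix.of fun x y => h (x + y)

/-! ### Maiorana–McFarland functions for `m = 8` -/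

lemma sgn_add (a b : ZMod 2) : sgn (a + b) = sgn a * sgn b := by
  revert a b; decide

lemma abs_sgn (a : ZMod 2) : |sgn a| = 1 := by
  revert a; decide

lemma sum_sgn (c : Vec 4) : ∑ x : Vec 4, sgn (dot x c) = if c = 0 then 16 else 0 := by
  revert c; decide +kernel

/-- The function `(x, y) ↦ x · σ(y)` on `𝔽₂⁴ × 𝔽₂⁴ = 𝔽₂⁸`. -/
def mm (σ : Vec 4 → Vec 4) : BF 8 := fun v =>
  dot (fun i : Fin 4 => v (Fin.castAdd 4 i)) (σ (fun i : Fin 4 => v (Fin.natAdd 4 i)))

/-- The function `(u, z) ↦ z · τ(u)` on `𝔽₂⁴ × 𝔽₂⁴ = 𝔽₂⁸`. -/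
def mmd (τ : Vec 4 → Vec 4) : BF 8 := fun v =>
  dot (fun i : Fin 4 => v (Fin.natAdd 4 i)) (τ (fun i : Fin 4 => v (Fin.castAdd 4 i)))

lemma dot_add_right {m : ℕ} (u x y : Vec m) : dot u (x + y) = dot u x + dot u y := by
  simp [dot, mul_add, sum_add_distrib]

lemma dot_comm' {m : ℕ} (u x : Vec m) : dot u x = dot x u := by
  simp [dot, mul_comm]

lemma walsh_mm (σ τ : Vec 4 → Vec 4) (h1 : ∀ y, τ (σ y) = y) (h2 : ∀ u, σ (τ u) = u) (w : Vec 8) :
    walsh (mm σ) w = 16 * sgn (mmd τ w) := by
  set u : Vec 4 := fun i => w (Fin.castAdd 4 i) with hu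
  set z : Vec 4 := fun i => w (Fin.natAdd 4 i) with hz
  have hstep : walsh (mm σ) w = ∑ p : Vec 4 × Vec 4, sgn (dot p.1 (σ p.2) + (dot u p.1 + dot z p.2)) := by
    unfold walsh
    rw [← Equiv.sum_comp (Fin.appendEquiv 4 4)]
    apply sum_congr rfl
    rintro ⟨x, y⟩ _
    have hx : (fun i : Fin 4 => (Fin.appendEquiv 4 4) (x, y) (Fin.castAdd 4 i)) = x := by
      funext i
      exact Fin.append_left x y i
    have hy : (fun i : Fin 4 => (Fin.appendEquiv 4 4) (x, y) (Fin.natAdd 4 i)) = y := by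
      funext i
      exact Fin.append_right x y i
    have hd : dot w ((Fin.appendEquiv 4 4) (x, y)) = dot u x + dot z y := by
      unfold dot
      rw [show (∑ i : Fin 8, w i * (Fin.appendEquiv 4 4) (x, y) i) = _ from
        Fin.sum_univ_add (a := 4) (b := 4) _]
      refine congrArg₂ (· + ·) ?_ ?_
      · apply sum_congr rfl
        intro i _
        rw [congrFun hx i]
      · apply sum_congr rfl
        intro i _
        rw [congrFun hy i]
    rw [hd]
    unfold mm
    rw [hx, hy]
  rw [hstep, Fintype.sum_prod_type_right]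
  have h3 : ∀ y : Vec 4, ∑ x : Vec 4, sgn (dot x (σ y) + (dot u x + dot z y))
      = if y = τ u then 16 * sgn (dot z y) else 0 := by
    intro y
    have h4 : ∀ x : Vec 4, sgn (dot x (σ y) + (dot u x + dot z y))
        = sgn (dot x (σ y + u)) * sgn (dot z y) := by
      intro x
      rw [← sgn_add, dot_add_right, dot_comm' x u]
      congr 1
      ring
    simp_rw [h4]
    rw [← sum_mul, sum_sgn]
    by_cases hy : y = τ u
    · rw [if_pos hy, if_pos]
      rw [hy, h2]
      funext i
      exact CharTwo.add_self_eq_zero _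
    · rw [if_neg hy, if_neg, zero_mul]
      intro h5
      apply hy
      have h6 : σ y = u := by
        funext i
        have := congrFun h5 i
        simp only [Pi.add_apply, Pi.zero_apply] at this
        rwa [CharTwo.add_eq_zero] at this
      rw [← h6, h1]
  simp_rw [h3]
  rw [Finset.sum_ite_eq' univ (τ u)]
  simp [mmd, hu, hz]

lemma isDual_mm (σ τ : Vec 4 → Vec 4) (h1 : ∀ y, τ (σ y) = y) (h2 : ∀ u, σ (τ u) = u) :
    IsDual (mm σ) (mmd τ) := by
  intro w
  rw [walsh_mm σ τ h1 h2]
  norm_num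

lemma bent_of_isDual {m : ℕ} {f f' : BF m} (h : IsDual f f') : Bent f := by
  intro u
  rw [h u, abs_mul, abs_sgn, mul_one]
  simp

/-! ### The example -/

/-- The permutation `π` of `𝔽₂⁴`, with `π ∘ π = π + id`. -/
def perm (y : Vec 4) : Vec 4 :=
  ![y 0 + y 1 + y 0 * (y 2 + y 3 + y 2 * y 3), y 0 + y 1 * (y 2 + y 3 + y 2 * y 3),
    y 2 + y 3 + y 2 * (y 0 + y 1 + y 0 * y 1), y 2 + y 3 * (y 0 + y 1 + y 0 * y 1)]

lemma perm_perm (y : Vec 4) : perm (perm y) = perm y + y := by
  revert y; decide +kernel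

lemma perm_three (y : Vec 4) : perm (perm (perm y)) = y := by
  revert y; decide +kernel

/-- The function `g(x, y) = x · y`. -/
def exg : BF 8 := mm id

/-- The function `h(x, y) = x · π(y)`. -/
def exh : BF 8 := mm perm

lemma ex_add : exg + exh = mm (fun y => perm (perm y)) := by
  funext v
  simp only [exg, exh, mm, Pi.add_apply, perm_perm]
  rw [dot_add_right, add_comm]
  rfl

lemma mmd_add : mmd id + mmd (fun y => perm (perm y)) = mmd perm := by
  funext v
  simp only [mmd, Pi.add_apply, perm_perm]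
  rw [dot_add_right, id_eq, add_comm, add_assoc, CharTwo.add_self_eq_zero, add_zero]

lemma dual_g : IsDual exg (mmd id) := isDual_mm _ _ (fun _ => rfl) (fun _ => rfl)

lemma dual_h : IsDual exh (mmd (fun y => perm (perm y))) :=
  isDual_mm _ _ (fun y => perm_three y) (fun y => perm_three y)

lemma dual_gh : IsDual (exg + exh) (mmd id + mmd (fun y => perm (perm y))) := by
  rw [ex_add, mmd_add]
  exact isDual_mm _ _ (fun y => perm_three y) (fun y => perm_three y)

/-- `h` as a polynomial in the coordinates. -/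
def H (a b c d p q r s : ZMod 2) : ZMod 2 :=
  a * (p + q + p * (r + s + r * s)) + b * (p + q * (r + s + r * s))
    + c * (r + s + r * (p + q + p * q)) + d * (r + s * (p + q + p * q))

lemma exh_eq (v : Vec 8) : exh v = H (v 0) (v 1) (v 2) (v 3) (v 4) (v 5) (v 6) (v 7) := by
  simp only [exh, mm, dot, Fin.sum_univ_four, perm, H]
  simp

lemma exg_eq (v : Vec 8) : exg v = v 0 * v 4 + v 1 * v 5 + v 2 * v 6 + v 3 * v 7 := by
  simp only [exg, mm, dot, Fin.sum_univ_four]
  rfl

/-- The second derivatives of `h` whose sum is `g`. -/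
def shiftsG : List (Vec 8) :=
  [![0, 0, 0, 0, 1, 0, 0, 0], ![0, 0, 0, 0, 0, 1, 0, 0], ![0, 0, 0, 0, 1, 1, 0, 0],
   ![0, 0, 0, 0, 0, 0, 1, 0], ![0, 0, 0, 0, 0, 0, 0, 1], ![0, 0, 0, 0, 0, 0, 1, 1]]

/-- The sixteen shifts whose sum is the constant `1`. -/
def shiftsOne : List (Vec 8) :=
  [![0, 0, 0, 0, 0, 0, 0, 0], ![1, 0, 0, 0, 0, 0, 0, 0], ![0, 0, 0, 0, 1, 0, 0, 0],
   ![1, 0, 0, 0, 1, 0, 0, 0], ![0, 0, 0, 0, 0, 0, 1, 0], ![1, 0, 0, 0, 0, 0, 1, 0],
   ![0, 0, 0, 0, 1, 0, 1, 0], ![1, 0, 0, 0, 1, 0, 1, 0], ![0, 0, 0, 0, 0, 0, 0, 1],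
   ![1, 0, 0, 0, 0, 0, 0, 1], ![0, 0, 0, 0, 1, 0, 0, 1], ![1, 0, 0, 0, 1, 0, 0, 1],
   ![0, 0, 0, 0, 0, 0, 1, 1], ![1, 0, 0, 0, 0, 0, 1, 1], ![0, 0, 0, 0, 1, 0, 1, 1],
   ![1, 0, 0, 0, 1, 0, 1, 1]]

lemma sum_shiftsG (v : Vec 8) : (shiftsG.map (fun s => exh (v + s))).sum = exg v := by
  simp only [shiftsG, List.map_cons, List.map_nil, List.sum_cons, List.sum_nil, exh_eq, exg_eq,
    Pi.add_apply]
  simp only [Matrix.cons_val]
  generalize v 0 = a
  generalize v 1 = b
  generalize v 2 = c
  generalize v 3 = d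
  generalize v 4 = p
  generalize v 5 = q
  generalize v 6 = r
  generalize v 7 = s
  revert a b c d p q r s
  decide +kernel

lemma sum_shiftsOne (v : Vec 8) : (shiftsOne.map (fun s => exh (v + s))).sum = 1 := by
  simp only [shiftsOne, List.map_cons, List.map_nil, List.sum_cons, List.sum_nil, exh_eq,
    Pi.add_apply]
  simp only [Matrix.cons_val]
  generalize v 0 = a
  generalize v 1 = b
  generalize v 2 = c
  generalize v 3 = d
  generalize v 4 = p
  generalize v 5 = q
  generalize v 6 = r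
  generalize v 7 = s
  revert a b c d p q r s
  decide +kernel

/-! ### The ranks -/

open Matrix in
lemma mulVec_list (l : List (Vec 8)) (k : BF 8) (w : Vec 8 → ZMod 2)
    (hl : ∀ v, (l.map (fun s => exh (v + s))).sum = k v) (hw : matN exh *ᵥ w = 0) :
    ∑ x, k x * w x = 0 := by
  have h1 : ∀ s : Vec 8, ∑ x, exh (x + s) * w x = 0 := by
    intro s
    have := congrFun hw s
    simp only [matN, Matrix.mulVec, dotProduct, Matrix.of_apply, Pi.zero_apply] at this
    rw [← this]
    exact sum_congr rfl (fun x _ => by rw [add_comm])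
  have h2 : ∀ x, k x * w x = (l.map (fun s => exh (x + s) * w x)).sum := by
    intro x
    rw [← hl x, List.sum_map_mul_right]
  simp_rw [h2]
  clear h2 hl
  induction l with
  | nil => simp
  | cons s l ih =>
    simp only [List.map_cons, List.sum_cons, sum_add_distrib, h1, zero_add]
    exact ih

open Matrix in
/-- The kernel of `N` is contained in the kernel of `M`. -/
lemma ker_le (w : Vec 8 → ZMod 2) (hw : matN exh *ᵥ w = 0) : matM exg exh *ᵥ w = 0 := by
  funext b
  have hone := mulVec_list shiftsOne (fun _ => 1) w sum_shiftsOne hw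
  have hg := mulVec_list shiftsG exg w sum_shiftsG hw
  have hh := mulVec_list [0] exh w (by intro v; simp) hw
  have hb := mulVec_list [b] (fun v => exh (v + b)) w (by intro v; simp) hw
  simp only [one_mul] at hone
  simp only [matM, Matrix.mulVec, dotProduct, Matrix.of_apply, Pi.zero_apply, add_mul,
    sum_add_distrib, ← mul_sum]
  rw [hone, hb, hg, hh]
  simp

/-- The indicator of the subspace of the sixteen shifts. -/
def wit (v : Vec 8) : ZMod 2 := if v ∈ shiftsOne then 1 else 0

lemma sum_wit (k : BF 8) : ∑ x, k x * wit x = (shiftsOne.map k).sum := by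
  have hnd : shiftsOne.Nodup := by decide +kernel
  have h1 : ∀ x, k x * wit x = if x ∈ shiftsOne.toFinset then k x else 0 := by
    intro x
    unfold wit
    simp only [List.mem_toFinset, mul_ite, mul_one, mul_zero]
  simp_rw [h1]
  rw [sum_ite_mem, univ_inter, List.sum_toFinset _ hnd]

open Matrix in
lemma wit_not_ker : matN exh *ᵥ wit ≠ 0 := by
  intro h
  have h0 := congrFun h 0
  simp only [matN, Matrix.mulVec, dotProduct, Matrix.of_apply, Pi.zero_apply] at h0
  rw [sum_wit (fun x => exh (0 + x)), sum_shiftsOne 0] at h0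
  exact one_ne_zero h0

open Matrix in
lemma wit_ker : matM exg exh *ᵥ wit = 0 := by
  funext b
  simp only [matM, Matrix.mulVec, dotProduct, Matrix.of_apply, Pi.zero_apply]
  rw [sum_wit (fun x => exg b + exh (x + b) + (exg x + exh x))]
  have h1 : (shiftsOne.map (fun x => exg b + exh (x + b) + (exg x + exh x))).sum
      = (shiftsOne.map (fun x => exh (b + x))).sum
        + ((shiftsOne.map (fun x => exh (0 + x))).sum + (shiftsOne.map (fun x => exg x)).sum) := by
    rw [← List.sum_map_add, ← List.sum_map_add]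
    have h2 : (shiftsOne.map (fun _ => exg b)).sum = 0 := by
      rw [List.map_const', List.sum_replicate]
      have : shiftsOne.length = 16 := rfl
      rw [this, nsmul_eq_mul]
      have : ((16 : ℕ) : ZMod 2) = 0 := by decide
      rw [this, zero_mul]
    have h3 : (shiftsOne.map (fun x => exg b + exh (x + b) + (exg x + exh x))).sum
        = (shiftsOne.map (fun _ => exg b)).sum
          + (shiftsOne.map (fun x => exh (b + x) + (exh (0 + x) + exg x))).sum := by
      rw [← List.sum_map_add]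
      congr 1
      apply List.map_congr_left
      intro x _
      rw [add_comm x b, zero_add]
      ring
    rw [h3, h2, zero_add]
  rw [h1, sum_shiftsOne, sum_shiftsOne]
  have h4 : (shiftsOne.map (fun x => exg x)).sum = 0 := by
    simp only [shiftsOne, List.map_cons, List.map_nil, List.sum_cons, List.sum_nil, exg_eq]
    simp only [Matrix.cons_val]
    decide +kernel
  rw [h4]
  decide

open Matrix in
lemma rank_lt : (matM exg exh).rank < (matN exh).rank := by
  have h1 := LinearMap.finrank_range_add_finrank_ker (matM exg exh).mulVecLin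
  have h2 := LinearMap.finrank_range_add_finrank_ker (matN exh).mulVecLin
  have h3 : LinearMap.ker (matN exh).mulVecLin < LinearMap.ker (matM exg exh).mulVecLin := by
    rw [SetLike.lt_iff_le_and_exists]
    refine ⟨fun w hw => ?_, wit, ?_, ?_⟩
    · rw [LinearMap.mem_ker, Matrix.mulVecLin_apply] at hw ⊢
      exact ker_le w hw
    · rw [LinearMap.mem_ker, Matrix.mulVecLin_apply]
      exact wit_ker
    · rw [LinearMap.mem_ker, Matrix.mulVecLin_apply]
      exact wit_not_ker
  have h4 := Submodule.finrank_lt_finrank_of_lt h3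
  unfold Matrix.rank
  omega

/-- **`D_{g,h}` and `TD_h` need not have the same 2-rank.** For `m = 8` there are bent functions
`g, h` such that `g + h` is bent, `(g + h)* = g* + h*` and the rank over `𝔽₂` of the incidence
matrix of `D_{g,h}` is smaller than that of the incidence matrix of `TD_h`. -/
theorem result : ∃ g h : BF 8, Bent g ∧ Bent h ∧ Bent (g + h) ∧
    (∃ g' h' : BF 8, IsDual g g' ∧ IsDual h h' ∧ IsDual (g + h) (g' + h')) ∧
    (matM g h).rank < (matN h).rank :=
  ⟨exg, exh, bent_of_isDual dual_g, bent_of_isDual dual_h, bent_of_isDual dual_gh,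
    ⟨_, _, dual_g, dual_h, dual_gh⟩, rank_lt⟩

end Pool.Agent.Results.MP_52c3fe_co.RanksDiffer
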